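import Pool.Agent.N662.SE.Main
import Pool.Agent.N353.SE.SELD
import Pool.Agent.N413.SE.ZOD
import Pool.Agent.N692.SD.AC

/-!
Directed polymers on `ℤ^d`, `d ≥ 2`, simple random walk, arbitrary i.i.d. environment (no moment
condition), positive temperature: the wandering exponent is at least `1/d` in almost every
direction; in particular it is at least `1/2` in dimension two.
The walk (`Step`, `pos`) and the energy are defined in `Pool/Agent/TH967/DP/Defs.lean`.
-/

set_option autoImplicit false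

open MeasureTheory ProbabilityTheory Filter Topology

namespace Pool.Agent.Results.MP_7d29a1_pr.EveryDimension

open TH967.DP (Step pos energy)

variable {d : ℕ}

/-- The weight `exp (β ∑_{i=1}^n η(i, S_i) + h · S_n)` of a walk of `n` steps in `ℤ^d`. -/
noncomputable def weight (β : ℝ) (h : Fin d → ℝ) (η : ℕ → (Fin d → ℤ) → ℝ) {n : ℕ}
    (w : Fin n → Step d) : ℝ :=
  Real.exp (β * energy η w + ∑ k, h k * (pos w n k : ℝ))

/-- The polymer measure `P_n` with inverse temperature `β` and drift `h ∈ ℝ^d` in the environment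
`η`. For `h = 0` it is the law of the simple random walk tilted by the environment. -/
noncomputable def polymer (β : ℝ) (h : Fin d → ℝ) (η : ℕ → (Fin d → ℤ) → ℝ) (n : ℕ)
    (A : Set (Fin n → Step d)) : ℝ :=
  (∑ w : Fin n → Step d, A.indicator (weight β h η) w) / ∑ w : Fin n → Step d, weight β h η w

/-- The Euclidean norm of `S_i - i v`. -/
noncomputable def dev (v : Fin d → ℝ) {n : ℕ} (w : Fin n → Step d) (i : ℕ) : ℝ :=
  Real.sqrt (∑ k, ((pos w i k : ℝ) - i * v k) ^ 2)

/-- The wandering exponent of the polymer with drift `h` around the line of slope `v`: the infimum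
of the `b > 0` such that `E (liminf_n P_n (max_{i ≤ n} ‖S_i - i v‖ ≤ n^b)) = 1`. -/
noncomputable def wander {Ω : Type} [MeasurableSpace Ω] (P : Measure Ω)
    (ω : ℕ → (Fin d → ℤ) → Ω → ℝ) (β : ℝ) (h v : Fin d → ℝ) : ℝ :=
  sInf {b : ℝ | 0 < b ∧ ∫ x, liminf (fun n : ℕ => polymer β h (fun i y => ω i y x) n
    {w | ∀ i ≤ n, dev v w i ≤ (n : ℝ) ^ b}) atTop ∂P = 1}

open Pool.Agent.N662 in
lemma polymer_eq (β : ℝ) (h : Fin d → ℝ) (η : ℕ → (Fin d → ℤ) → ℝ) (n : ℕ)
    (A : Set (Fin n → Step d)) : polymer β h η n A = SE.prob β h η n A := by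
  have h1 : ∀ B : Set (Fin n → Step d), SE.part β h η n B = ∑ w, B.indicator (weight β h η) w :=
    fun B => rfl
  unfold polymer SE.prob
  rw [h1, h1]
  simp only [Set.indicator_univ]

lemma polymer_nonneg (β : ℝ) (h : Fin d → ℝ) (η : ℕ → (Fin d → ℤ) → ℝ) (n : ℕ)
    (A : Set (Fin n → Step d)) : 0 ≤ polymer β h η n A := by
  rw [polymer_eq]; exact Pool.Agent.N662.SE.prob_nonneg _ _ _ _

lemma polymer_univ (hd : 1 ≤ d) (β : ℝ) (h : Fin d → ℝ) (η : ℕ → (Fin d → ℤ) → ℝ) (n : ℕ) :
    polymer β h η n Set.univ = 1 := by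
  rw [polymer_eq]
  exact Pool.Agent.N662.SE.prob_univ hd β h η n

lemma polymer_mono (β : ℝ) (h : Fin d → ℝ) (η : ℕ → (Fin d → ℤ) → ℝ) {n : ℕ}
    {A B : Set (Fin n → Step d)} (hAB : A ⊆ B) : polymer β h η n A ≤ polymer β h η n B := by
  rw [polymer_eq, polymer_eq]; exact Pool.Agent.N662.SE.prob_mono _ _ _ hAB

lemma abs_le_dev (v : Fin d → ℝ) {n : ℕ} (w : Fin n → Step d) (i : ℕ) (k : Fin d) :
    |(pos w i k : ℝ) - i * v k| ≤ dev v w i := by
  unfold dev
  apply Real.le_sqrt_of_sq_le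
  rw [sq_abs]
  exact Finset.single_le_sum (f := fun k => ((pos w i k : ℝ) - i * v k) ^ 2)
    (fun _ _ => sq_nonneg _) (Finset.mem_univ k)

lemma dev_le (v : Fin d → ℝ) {n : ℕ} (w : Fin n → Step d) (i : ℕ) (hi : i ≤ n) :
    dev v w i ≤ n * ∑ k, (1 + |v k|) := by
  have h0 : ∀ k, |(pos w i k : ℝ) - i * v k| ≤ n * (1 + |v k|) := by
    intro k
    have h5 : |(pos w i k : ℝ)| ≤ n := by
      exact_mod_cast Pool.Agent.N662.SE.pos_abs w i k
    have h6 : |(i : ℝ) * v k| ≤ n * |v k| := by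
      rw [abs_mul, Nat.abs_cast]
      exact mul_le_mul_of_nonneg_right (by exact_mod_cast hi) (abs_nonneg _)
    calc |(pos w i k : ℝ) - i * v k| ≤ |(pos w i k : ℝ)| + |(i : ℝ) * v k| := abs_sub _ _
      _ ≤ n * (1 + |v k|) := by linarith
  unfold dev
  apply Real.sqrt_le_iff.2
  refine ⟨by positivity, ?_⟩
  have h := Finset.sum_sq_le_sq_sum_of_nonneg (s := Finset.univ)
    (f := fun k => |(pos w i k : ℝ) - i * v k|) (fun _ _ => abs_nonneg _)
  simp only [sq_abs] at h
  refine h.trans ?_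
  apply pow_le_pow_left₀ (Finset.sum_nonneg (fun _ _ => abs_nonneg _))
  rw [Finset.mul_sum]
  exact Finset.sum_le_sum fun k _ => h0 k

/-- Let `d ≥ 2`, let `ω(i,y)` be i.i.d. with any non-constant law and `β > 0`. There is a Lebesgue
null set `N` of slopes in `ℝ^d` such that for all `v ∉ N` and all drifts `h ∈ ℝ^d`:
(1) for all `θ < 1`, `0 ≤ a < 1/d` and `c < (1-da)/2`, almost surely, for infinitely many `n` the
polymer measure of `{‖S_i - i v‖ ≤ n^a for all θ n ≤ i ≤ n}` is at most `exp(-n^c)`;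
(2) the wandering exponent around the line of slope `v` is at least `1/d`. -/
theorem result (hd : 2 ≤ d) {Ω : Type} [MeasurableSpace Ω] (P : Measure Ω)
    [IsProbabilityMeasure P] (ω : ℕ → (Fin d → ℤ) → Ω → ℝ) (hmeas : ∀ i y, Measurable (ω i y))
    (hindep : iIndepFun (fun s : ℕ × (Fin d → ℤ) => ω s.1 s.2) P)
    (hident : ∀ i y, IdentDistrib (ω i y) (ω 1 0) P P)
    (hnc : ¬ ∃ c : ℝ, ∀ᵐ x ∂P, ω 1 0 x = c) (β : ℝ) (hβ : 0 < β) :
    ∃ N : Set (Fin d → ℝ), volume N = 0 ∧ ∀ v : Fin d → ℝ, v ∉ N → ∀ h : Fin d → ℝ,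
      (∀ θ a c : ℝ, θ < 1 → 0 ≤ a → a < 1 / d → c < (1 - d * a) / 2 →
        ∀ᵐ x ∂P, ∃ᶠ n : ℕ in atTop, polymer β h (fun i y => ω i y x) n
          {w | ∀ i : ℕ, θ * n ≤ i → i ≤ n → dev v w i ≤ (n : ℝ) ^ a} ≤
            Real.exp (-(n : ℝ) ^ c)) ∧
      1 / (d : ℝ) ≤ wander P ω β h v := by
  have hd1 : 1 ≤ d := by omega
  have hdR : (2 : ℝ) ≤ d := by exact_mod_cast hd
  have hd0 : (0 : ℝ) < d := by linarith
  obtain ⟨N, hN, hmain⟩ := Pool.Agent.N662.SE.main Pool.Agent.N692.SD.AC.main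
    Pool.Agent.N353.SE.Seld.main Pool.Agent.N413.SE.main d hd1 Ω P ω ⟨hmeas, hindep, hident⟩
    hnc β hβ
  refine ⟨N, hN, fun v hv h => ?_⟩
  have h1 : ∀ θ a c : ℝ, θ < 1 → 0 ≤ a → a < 1 / d → c < (1 - d * a) / 2 →
      ∀ᵐ x ∂P, ∃ᶠ n : ℕ in atTop, polymer β h (fun i y => ω i y x) n
        {w | ∀ i : ℕ, θ * n ≤ i → i ≤ n → dev v w i ≤ (n : ℝ) ^ a} ≤
          Real.exp (-(n : ℝ) ^ c) := by
    intro θ a c hθ ha0 ha hc
    have ha' : a < 3 / ((d : ℝ) + 4) := by
      refine ha.trans_le ?_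
      rw [div_le_div_iff₀ hd0 (by linarith)]
      linarith
    filter_upwards [hmain v hv h θ a c hθ ha0 ha' ha hc] with x hx
    refine hx.mono fun n hn => ?_
    rw [polymer_eq]
    refine le_trans (Pool.Agent.N662.SE.prob_mono _ _ _ ?_) hn
    intro w hw i hi hin k
    exact (abs_le_dev v w i k).trans (hw i hi hin)
  refine ⟨h1, ?_⟩
  apply le_csInf
  · -- the exponent 2 is in the set
    refine ⟨2, by norm_num, ?_⟩
    have h2 : ∀ x : Ω, liminf (fun n : ℕ => polymer β h (fun i y => ω i y x) n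
        {w | ∀ i ≤ n, dev v w i ≤ (n : ℝ) ^ (2 : ℝ)}) atTop = 1 := by
      intro x
      have h3 : Tendsto (fun n : ℕ => polymer β h (fun i y => ω i y x) n
          {w | ∀ i ≤ n, dev v w i ≤ (n : ℝ) ^ (2 : ℝ)}) atTop (𝓝 1) := by
        apply tendsto_const_nhds.congr'
        filter_upwards [tendsto_natCast_atTop_atTop.eventually_ge_atTop (∑ k, (1 + |v k|))]
          with n hn
        have h4 : {w : Fin n → Step d | ∀ i ≤ n, dev v w i ≤ (n : ℝ) ^ (2 : ℝ)} =
            Set.univ := by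
          apply Set.eq_univ_of_forall
          intro w i hi
          have h7 : (n : ℝ) ^ (2 : ℝ) = n * n := by
            rw [Real.rpow_two, sq]
          rw [h7]
          exact (dev_le v w i hi).trans (mul_le_mul_of_nonneg_left hn (Nat.cast_nonneg n))
        rw [h4, polymer_univ hd1]
      exact h3.liminf_eq
    simp_rw [h2]
    simp
  · rintro b ⟨hb0, hb⟩
    by_contra hcon
    push Not at hcon
    have hcon' := hcon
    rw [lt_div_iff₀ hd0] at hcon'
    have h2 := h1 0 b ((1 - d * b) / 4) (by norm_num) hb0.le hcon (by linarith)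
    have h3 : ∀ᵐ x ∂P, liminf (fun n : ℕ => polymer β h (fun i y => ω i y x) n
        {w | ∀ i ≤ n, dev v w i ≤ (n : ℝ) ^ b}) atTop ≤ 1 / 2 := by
      filter_upwards [h2] with x hx
      apply liminf_le_of_frequently_le
      · have h4 : ∀ᶠ n : ℕ in atTop, Real.exp (-(n : ℝ) ^ ((1 - d * b) / 4)) ≤ 1 / 2 := by
          have h5 : Tendsto (fun n : ℕ => (n : ℝ) ^ ((1 - d * b) / 4)) atTop atTop :=
            (tendsto_rpow_atTop (by linarith)).comp tendsto_natCast_atTop_atTop
          have h6 := Real.tendsto_exp_neg_atTop_nhds_zero.comp h5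
          exact (h6.eventually (gt_mem_nhds (by norm_num : (0 : ℝ) < 1 / 2))).mono
            fun n hn => le_of_lt hn
        refine (hx.and_eventually h4).mono ?_
        rintro n ⟨h5, h6⟩
        refine le_trans (polymer_mono _ _ _ ?_) (h5.trans h6)
        intro w hw i _ hi
        exact hw i hi
      · refine ⟨0, ?_⟩
        rw [eventually_map]
        exact Eventually.of_forall fun n => polymer_nonneg _ _ _ _ _
    have h4 : ∫ x, liminf (fun n : ℕ => polymer β h (fun i y => ω i y x) n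
        {w | ∀ i ≤ n, dev v w i ≤ (n : ℝ) ^ b}) atTop ∂P ≤
        ∫ _x, (1 / 2 : ℝ) ∂P := by
      apply integral_mono_of_nonneg
      · refine Eventually.of_forall fun x => ?_
        apply le_liminf_of_le
        · refine ⟨1, ?_⟩
          intro y hy
          rw [eventually_map] at hy
          obtain ⟨n, hn⟩ := hy.exists
          refine hn.trans ?_
          rw [← polymer_univ hd1 β h (fun i y => ω i y x) n]
          exact polymer_mono _ _ _ (Set.subset_univ _)
        · exact Eventually.of_forall fun n => polymer_nonneg _ _ _ _ _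
      · exact integrable_const _
      · exact h3
    rw [hb] at h4
    simp at h4
    norm_num at h4

end Pool.Agent.Results.MP_7d29a1_pr.EveryDimension
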