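import Pool.Agent.N662.SE.All
import Pool.Agent.N523.SE.MGF

/-!
Directed polymers in dimension `1+1`, simple random walk, i.i.d. environment with exponential
moments, positive temperature: `Var log Z_n ≥ n^(1/4-ε)`, i.e. `χ ≥ 1/8`, for Lebesgue almost every
drift, without any assumption on the curvature of the limiting free energy; and relations between
the exponents. The definitions (`polymer`, `logZ`, `wander`, `Concentrated`, `chiUp`, `chi`) are in
`Pool/Agent/N662/SE/Exp.lean`.
-/

set_option autoImplicit false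

open MeasureTheory ProbabilityTheory Filter Topology

namespace Pool.Agent.Results.MP_7d29a1_pr.FluctuationExponents

open Pool.Agent.N662.SE

/-- Let `d = 1`, let `ω(i,y)` be i.i.d., not almost surely constant, with all exponential moments,
and let `β > 0`.
(1) For every drift `h` and every slope `v`: `(1 - ν)/2 ≤ χ ≤ χ' ≤ 1/2`, where `ν` is the wandering
exponent around the line of slope `v`, `χ` the fluctuation exponent and `χ'` the upper fluctuation
exponent.
(2) For Lebesgue almost every drift `h`: `(1 - χ')/4 ≤ χ`, and for every `t < 1/8` the variance of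
`log Z_n` is at least `n^(2t)` for all large `n`. -/
theorem result {Ω : Type} [MeasurableSpace Ω] (P : Measure Ω)
    [IsProbabilityMeasure P] (ω : ℕ → (Fin 1 → ℤ) → Ω → ℝ) (hmeas : ∀ i y, Measurable (ω i y))
    (hindep : iIndepFun (fun s : ℕ × (Fin 1 → ℤ) => ω s.1 s.2) P)
    (hident : ∀ i y, IdentDistrib (ω i y) (ω 1 0) P P)
    (hexp : ∀ b : ℝ, Integrable (fun x => Real.exp (b * ω 1 0 x)) P)
    (hnc : ¬ ∃ c : ℝ, ∀ᵐ x ∂P, ω 1 0 x = c) (β : ℝ) (hβ : 0 < β) :
    (∀ h v : Fin 1 → ℝ, (1 - wander P ω β h v) / 2 ≤ chi P ω β h ∧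
      chi P ω β h ≤ chiUp P ω β h ∧ chiUp P ω β h ≤ 1 / 2) ∧
    ∀ᵐ h : Fin 1 → ℝ, (1 - chiUp P ω β h) / 4 ≤ chi P ω β h ∧
      ∀ t : ℝ, t < 1 / 8 → ∀ᶠ n : ℕ in atTop, (n : ℝ) ^ (2 * t) ≤
        variance (fun x => logZ β h (fun i y => ω i y x) n) P :=
  fluct Pool.Agent.N523.SE.MGF.main P ω ⟨hmeas, hindep, hident⟩ hexp hnc β hβ

end Pool.Agent.Results.MP_7d29a1_pr.FluctuationExponents
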