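import Pool.Agent.N662.SE.All
import Pool.Agent.N523.SE.MGF

/-!
Directed polymers on `ℤ^d`, `d ≥ 1`, simple random walk, i.i.d. environment with exponential
moments: the inequality `2 ν - 1 ≤ χ'` (one half of the scaling relation `χ = 2 ν - 1`) and the
bound `ν ≤ 3/4` hold for Lebesgue almost every drift, without any assumption on the curvature of the
limiting free energy. The definitions (`polymer`, `logZ`, `wander`, `Concentrated`, `chiUp`) are in
`Pool/Agent/N662/SE/Exp.lean`, `dev` is in `Pool/Agent/N662/SE/Up.lean`.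
-/

set_option autoImplicit false

open MeasureTheory ProbabilityTheory Filter Topology

namespace Pool.Agent.Results.MP_7d29a1_pr.ScalingInequality

open TH967.DP (Step pos energy)
open Pool.Agent.N662.SE

/-- Let `ω(i,y)` be i.i.d. with all exponential moments and `β ∈ ℝ`. For Lebesgue almost every drift
`h ∈ ℝ^d` there is a slope `v ∈ ℝ^d` such that:
(1) if `0 < ξ < 1` and the free energy is concentrated on the scale `n^ξ` for the drifts near `h`,
then for `(1+ξ)/2 < b ≤ 1` and `c < 2b-1`, almost surely, for all large `n` the polymer measure of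
`{max_{i ≤ n} ‖S_i - i v‖ ≤ n^b}` is at least `1 - exp(-n^c)`;
(2) the free energy is concentrated on the scale `n^(1/2)`, so (1) holds with `ξ = 1/2`, `b > 3/4`;
(3) `2 ν - 1 ≤ χ' ≤ 1/2`, where `ν` is the wandering exponent around the line of slope `v` and `χ'`
the upper fluctuation exponent at `h`; in particular `ν ≤ 3/4`. -/
theorem result {d : ℕ} (hd : 1 ≤ d) {Ω : Type} [MeasurableSpace Ω] (P : Measure Ω)
    [IsProbabilityMeasure P] (ω : ℕ → (Fin d → ℤ) → Ω → ℝ) (hmeas : ∀ i y, Measurable (ω i y))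
    (hindep : iIndepFun (fun s : ℕ × (Fin d → ℤ) => ω s.1 s.2) P)
    (hident : ∀ i y, IdentDistrib (ω i y) (ω 1 0) P P)
    (hexp : ∀ b : ℝ, Integrable (fun x => Real.exp (b * ω 1 0 x)) P) (β : ℝ) :
    ∀ᵐ h : Fin d → ℝ, ∃ v : Fin d → ℝ,
      (∀ ξ : ℝ, 0 < ξ → ξ < 1 → Concentrated P ω β h ξ → ∀ b c : ℝ, (1 + ξ) / 2 < b → b ≤ 1 →
        c < 2 * b - 1 → ∀ᵐ x ∂P, ∀ᶠ n : ℕ in atTop,
          1 - Real.exp (-(n : ℝ) ^ c) ≤ polymer β h (fun i y => ω i y x) n
            {w | ∀ i : ℕ, i ≤ n → dev v w i ≤ (n : ℝ) ^ b}) ∧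
      Concentrated P ω β h (1 / 2) ∧
      2 * wander P ω β h v - 1 ≤ chiUp P ω β h ∧ chiUp P ω β h ≤ 1 / 2 :=
  upper Pool.Agent.N523.SE.MGF.main hd P ω ⟨hmeas, hindep, hident⟩ hexp β

end Pool.Agent.Results.MP_7d29a1_pr.ScalingInequality
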