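import Pool.Agent.N662.SD.Main
import Pool.Agent.N364.SD.Sel
import Pool.Agent.N75.SD.ZO
import Pool.Agent.N692.SD.AC

/-!
Directed polymers in dimension `1+1`, simple random walk, arbitrary i.i.d. environment (no moment
condition), positive temperature: the wandering exponent is at least `3/5` in almost every
direction.
-/

set_option autoImplicit false

open MeasureTheory ProbabilityTheory Filter Topology

namespace Pool.Agent.Results.MP_7d29a1_pr.ThreeFifths

/-- The position `S_i` of the nearest neighbour walk with steps `w`: `true` is a step `+1`, `false`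
is a step `-1`. -/
def pos {n : ℕ} (w : Fin n → Bool) (i : ℕ) : ℤ :=
  ∑ k : Fin n, if k.val < i then (if w k then 1 else -1) else 0

/-- The weight `exp (β ∑_{i=1}^n η(i, S_i) + h S_n)` of a walk of `n` steps. -/
noncomputable def weight (β h : ℝ) (η : ℕ → ℤ → ℝ) {n : ℕ} (w : Fin n → Bool) : ℝ :=
  Real.exp (β * ∑ i : Fin n, η (i.val + 1) (pos w (i.val + 1)) + h * (pos w n : ℝ))

/-- The polymer measure `P_n` with inverse temperature `β` and drift `h` in the environment `η`.
For `h = 0` it is the law of the simple random walk tilted by the environment. -/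
noncomputable def polymer (β h : ℝ) (η : ℕ → ℤ → ℝ) (n : ℕ) (A : Set (Fin n → Bool)) : ℝ :=
  (∑ w : Fin n → Bool, A.indicator (weight β h η) w) / ∑ w : Fin n → Bool, weight β h η w

/-- The wandering exponent of the polymer with drift `h` around the line of slope `v`: the infimum
of the `b > 0` such that `E (liminf_n P_n (max_{i ≤ n} |S_i - i v| ≤ n^b)) = 1`. -/
noncomputable def wander {Ω : Type} [MeasurableSpace Ω] (P : Measure Ω) (ω : ℕ → ℤ → Ω → ℝ)
    (β h v : ℝ) : ℝ :=
  sInf {b : ℝ | 0 < b ∧ ∫ x, liminf (fun n : ℕ => polymer β h (fun i y => ω i y x) n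
    {w | ∀ i ≤ n, |(pos w i : ℝ) - i * v| ≤ (n : ℝ) ^ b}) atTop ∂P = 1}

open Pool.Agent.N662 in
lemma polymer_eq (β h : ℝ) (η : ℕ → ℤ → ℝ) (n : ℕ) (A : Set (Fin n → Bool)) :
    polymer β h η n A = SD.prob β h η n A := by
  have h1 : ∀ B : Set (Fin n → Bool), SD.part β h η n B = ∑ w, B.indicator (weight β h η) w :=
    fun B => rfl
  unfold polymer SD.prob
  rw [h1, h1]
  simp only [Set.indicator_univ]

lemma polymer_nonneg (β h : ℝ) (η : ℕ → ℤ → ℝ) (n : ℕ) (A : Set (Fin n → Bool)) :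
    0 ≤ polymer β h η n A := by
  rw [polymer_eq]; exact Pool.Agent.N662.SD.prob_nonneg _ _ _ _

lemma polymer_univ (β h : ℝ) (η : ℕ → ℤ → ℝ) (n : ℕ) : polymer β h η n Set.univ = 1 := by
  rw [polymer_eq]
  exact div_self (Pool.Agent.N662.SD.part_univ_pos β h η).ne'

lemma polymer_mono (β h : ℝ) (η : ℕ → ℤ → ℝ) {n : ℕ} {A B : Set (Fin n → Bool)} (hAB : A ⊆ B) :
    polymer β h η n A ≤ polymer β h η n B := by
  rw [polymer_eq, polymer_eq]; exact Pool.Agent.N662.SD.prob_mono _ _ _ hAB

lemma polymer_le_one (β h : ℝ) (η : ℕ → ℤ → ℝ) (n : ℕ) (A : Set (Fin n → Bool)) :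
    polymer β h η n A ≤ 1 := by
  rw [← polymer_univ β h η n]; exact polymer_mono _ _ _ (Set.subset_univ _)

/-- Let `ω(i,y)` be i.i.d. with any non-constant law and `β > 0`. There is a Lebesgue null set `N` of
slopes such that for all `v ∉ N` and all drifts `h`:
(1) for all `θ < 1`, `0 ≤ a < 3/5` and `c < (1-a)/2`, almost surely, for infinitely many `n` the
polymer measure of `{|S_i - i v| ≤ n^a for all θ n ≤ i ≤ n}` is at most `exp(-n^c)`;
(2) the wandering exponent around the line of slope `v` is at least `3/5`. -/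
theorem result {Ω : Type} [MeasurableSpace Ω] (P : Measure Ω) [IsProbabilityMeasure P]
    (ω : ℕ → ℤ → Ω → ℝ) (hmeas : ∀ i y, Measurable (ω i y))
    (hindep : iIndepFun (fun s : ℕ × ℤ => ω s.1 s.2) P)
    (hident : ∀ i y, IdentDistrib (ω i y) (ω 1 0) P P)
    (hnc : ¬ ∃ c : ℝ, ∀ᵐ x ∂P, ω 1 0 x = c) (β : ℝ) (hβ : 0 < β) :
    ∃ N : Set ℝ, volume N = 0 ∧ ∀ v : ℝ, v ∉ N → ∀ h : ℝ,
      (∀ θ a c : ℝ, θ < 1 → 0 ≤ a → a < 3 / 5 → c < (1 - a) / 2 →
        ∀ᵐ x ∂P, ∃ᶠ n : ℕ in atTop, polymer β h (fun i y => ω i y x) n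
          {w | ∀ i : ℕ, θ * n ≤ i → i ≤ n → |(pos w i : ℝ) - i * v| ≤ (n : ℝ) ^ a} ≤
            Real.exp (-(n : ℝ) ^ c)) ∧
      3 / 5 ≤ wander P ω β h v := by
  obtain ⟨N, hN, hmain⟩ := Pool.Agent.N662.SD.main Pool.Agent.N692.SD.AC.main
    Pool.Agent.N364.SD.main Pool.Agent.N75.SD.main Ω P ω ⟨hmeas, hindep, hident⟩ hnc β hβ
  refine ⟨N, hN, fun v hv h => ?_⟩
  have h1 : ∀ θ a c : ℝ, θ < 1 → 0 ≤ a → a < 3 / 5 → c < (1 - a) / 2 →
      ∀ᵐ x ∂P, ∃ᶠ n : ℕ in atTop, polymer β h (fun i y => ω i y x) n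
        {w | ∀ i : ℕ, θ * n ≤ i → i ≤ n → |(pos w i : ℝ) - i * v| ≤ (n : ℝ) ^ a} ≤
          Real.exp (-(n : ℝ) ^ c) := by
    intro θ a c hθ ha0 ha hc
    filter_upwards [hmain v hv h θ a c hθ ha0 ha hc] with x hx
    refine hx.mono fun n hn => ?_
    rw [polymer_eq]
    exact hn
  refine ⟨h1, ?_⟩
  apply le_csInf
  · -- the exponent 2 is in the set
    refine ⟨2, by norm_num, ?_⟩
    have h2 : ∀ x : Ω, liminf (fun n : ℕ => polymer β h (fun i y => ω i y x) n
        {w | ∀ i ≤ n, |(pos w i : ℝ) - i * v| ≤ (n : ℝ) ^ (2 : ℝ)}) atTop = 1 := by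
      intro x
      have h3 : Tendsto (fun n : ℕ => polymer β h (fun i y => ω i y x) n
          {w | ∀ i ≤ n, |(pos w i : ℝ) - i * v| ≤ (n : ℝ) ^ (2 : ℝ)}) atTop (𝓝 1) := by
        apply tendsto_const_nhds.congr'
        filter_upwards [tendsto_natCast_atTop_atTop.eventually_ge_atTop (1 + |v|)] with n hn
        have h4 : {w : Fin n → Bool | ∀ i ≤ n, |(pos w i : ℝ) - i * v| ≤ (n : ℝ) ^ (2 : ℝ)} =
            Set.univ := by
          apply Set.eq_univ_of_forall
          intro w i hi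
          have h5 : |(pos w i : ℝ)| ≤ n := by
            exact_mod_cast Pool.Agent.N662.SD.abs_pos_le w i
          have h6 : |(i : ℝ) * v| ≤ n * |v| := by
            rw [abs_mul, Nat.abs_cast]
            exact mul_le_mul_of_nonneg_right (by exact_mod_cast hi) (abs_nonneg _)
          have h7 : (n : ℝ) ^ (2 : ℝ) = n * n := by
            rw [Real.rpow_two, sq]
          rw [h7]
          calc |(pos w i : ℝ) - i * v| ≤ |(pos w i : ℝ)| + |(i : ℝ) * v| := abs_sub _ _
            _ ≤ n * (1 + |v|) := by linarith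
            _ ≤ n * n := mul_le_mul_of_nonneg_left hn (Nat.cast_nonneg n)
        rw [h4, polymer_univ]
      exact h3.liminf_eq
    simp_rw [h2]
    simp
  · rintro b ⟨hb0, hb⟩
    by_contra hcon
    push Not at hcon
    have h2 := h1 0 b ((1 - b) / 4) (by norm_num) hb0.le hcon (by linarith)
    have h3 : ∀ᵐ x ∂P, liminf (fun n : ℕ => polymer β h (fun i y => ω i y x) n
        {w | ∀ i ≤ n, |(pos w i : ℝ) - i * v| ≤ (n : ℝ) ^ b}) atTop ≤ 1 / 2 := by
      filter_upwards [h2] with x hx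
      apply liminf_le_of_frequently_le
      · have h4 : ∀ᶠ n : ℕ in atTop, Real.exp (-(n : ℝ) ^ ((1 - b) / 4)) ≤ 1 / 2 := by
          have h5 : Tendsto (fun n : ℕ => (n : ℝ) ^ ((1 - b) / 4)) atTop atTop :=
            (tendsto_rpow_atTop (by linarith)).comp tendsto_natCast_atTop_atTop
          have h6 := Real.tendsto_exp_neg_atTop_nhds_zero.comp h5
          exact (h6.eventually (gt_mem_nhds (by norm_num : (0 : ℝ) < 1 / 2))).mono
            fun n hn => le_of_lt hn
        refine (hx.and_eventually h4).mono ?_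
        rintro n ⟨h5, h6⟩
        refine le_trans (polymer_mono _ _ _ ?_) (h5.trans h6)
        intro w hw i _ hi
        exact hw i hi
      · refine ⟨0, ?_⟩
        rw [eventually_map]
        exact Eventually.of_forall fun n => polymer_nonneg _ _ _ _ _
    have h4 : ∫ x, liminf (fun n : ℕ => polymer β h (fun i y => ω i y x) n
        {w | ∀ i ≤ n, |(pos w i : ℝ) - i * v| ≤ (n : ℝ) ^ b}) atTop ∂P ≤
        ∫ _x, (1 / 2 : ℝ) ∂P := by
      apply integral_mono_of_nonneg
      · refine Eventually.of_forall fun x => ?_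
        apply le_liminf_of_le
        · refine ⟨1, ?_⟩
          intro y hy
          rw [eventually_map] at hy
          obtain ⟨n, hn⟩ := hy.exists
          exact hn.trans (polymer_le_one _ _ _ _ _)
        · exact Eventually.of_forall fun n => polymer_nonneg _ _ _ _ _
      · exact integrable_const _
      · exact h3
    rw [hb] at h4
    simp at h4
    norm_num at h4

end Pool.Agent.Results.MP_7d29a1_pr.ThreeFifths
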